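import Pool.Agent.Helper64.MVB.Riem1

/-!
Project MV, block B, module MVB-EV: sums over the index two sublattice `∑ δ` even.

PROOF. `∑_{δ ∈ boxes, ∑ δ even} ∏ g (t δ_c) = (1/2) [∏_c ∑_{d ∈ box} g (t d) + ∏_c ∑_{d ∈ box} (-1)^d g (t d)]`
(`Finset.prod_univ_sum`; `(1 + (-1)^(∑ δ)) / 2` is the indicator of `Even (∑ δ)`; `∏ (-1)^(δ c) = (-1)^(∑ δ)`).
Multiply by `t ^ card κ`: the products become `(t * ∑ ..) ^ card κ`, which tend to `(∫ g)^(card κ)` (`riem_line`)
and `0 ^ (card κ) = 0` (`riem_alt`, `card κ ≥ 1`).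
-/

namespace Pool.Agent.Helper64.MVB

open MeasureTheory Filter Topology

theorem even_sum {κ : Type} [Fintype κ] [DecidableEq κ] [Nonempty κ] (g : ℝ → ℝ) (hg : Continuous g)
    (A : ℝ) (hA : 0 < A) (hs : ∀ x, A ≤ |x| → g x = 0) :
    Tendsto (fun t : ℝ => t ^ Fintype.card κ *
      ∑ δ ∈ (Fintype.piFinset (fun _ : κ => box A t)).filter (fun δ => Even (∑ c, δ c)),
        ∏ c, g (t * (δ c : ℝ)))
      (𝓝[>] (0:ℝ)) (𝓝 ((∫ x : ℝ, g x) ^ Fintype.card κ / 2)) := by
  classical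
  have key : ∀ t : ℝ, t ^ Fintype.card κ *
      ∑ δ ∈ (Fintype.piFinset (fun _ : κ => box A t)).filter (fun δ => Even (∑ c, δ c)),
        ∏ c, g (t * (δ c : ℝ)) =
      ((t * ∑ d ∈ box A t, g (t * (d : ℝ))) ^ Fintype.card κ +
        (t * ∑ d ∈ box A t, (-1 : ℝ) ^ d * g (t * (d : ℝ))) ^ Fintype.card κ) / 2 := by
    intro t
    have h1 : (∑ d ∈ box A t, g (t * (d : ℝ))) ^ Fintype.card κ =
        ∑ δ ∈ Fintype.piFinset (fun _ : κ => box A t), ∏ c, g (t * (δ c : ℝ)) := by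
      rw [← Finset.prod_univ_sum (fun _ : κ => box A t) (fun _ d => g (t * (d : ℝ)))]
      simp
    have h2 : (∑ d ∈ box A t, (-1 : ℝ) ^ d * g (t * (d : ℝ))) ^ Fintype.card κ =
        ∑ δ ∈ Fintype.piFinset (fun _ : κ => box A t),
          ∏ c, ((-1 : ℝ) ^ (δ c) * g (t * (δ c : ℝ))) := by
      rw [← Finset.prod_univ_sum (fun _ : κ => box A t)
        (fun _ d => (-1 : ℝ) ^ d * g (t * (d : ℝ)))]
      simp
    rw [mul_pow, mul_pow, h1, h2, ← mul_add, ← Finset.sum_add_distrib, mul_div_assoc,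
      Finset.sum_div, Finset.sum_filter]
    congr 1
    refine Finset.sum_congr rfl fun δ _ => ?_
    have h3 : ∏ c, (-1 : ℝ) ^ (δ c) = (-1 : ℝ) ^ (∑ c, δ c) := by
      have hz : ((-1 : ℝ)) ≠ 0 := by norm_num
      induction (Finset.univ : Finset κ) using Finset.induction_on with
      | empty => simp
      | insert a s ha ih => rw [Finset.prod_insert ha, Finset.sum_insert ha, ih, zpow_add₀ hz]
    rw [Finset.prod_mul_distrib, h3]
    by_cases he : Even (∑ c, δ c)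
    · rw [if_pos he, he.neg_one_zpow]
      ring
    · rw [if_neg he, (Int.not_even_iff_odd.1 he).neg_one_zpow]
      ring
  simp only [key]
  have h := ((riem_line g hg A hA hs).pow (Fintype.card κ)).add
    ((riem_alt g hg A hA hs).pow (Fintype.card κ))
  have h0 : (0 : ℝ) ^ Fintype.card κ = 0 := zero_pow Fintype.card_ne_zero
  rw [h0, add_zero] at h
  exact h.div_const 2

end Pool.Agent.Helper64.MVB
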