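import Pool.Agent.Helper60.MV.DefsC

/-!
Project MV, block B, module MVB-INC: incidence matrices of configurations.

PROOF.
* `cyc_eq_iff` for a pairing: `cyc τ a = cyc τ b ↔ a = b ∨ a = τ b` (`Equiv.Perm.SameCycle`, `τ (τ h) = h`: every integer
  power of `τ` is `1` or `τ`).
* `card_edge`: each edge (fibre of `R.edge`) has exactly two half-edges `h ≠ τ h`
  (`Finset.card_eq_sum_card_fiberwise`).
* `cface_bij`: by `cyc_eq_iff` for `β`: the cycle of the face `f` is `{f, β f}`, with representative `c.rep ∈ {f, β f}`;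
  `cface c false = c.rep`, `cface c true = β c.rep ≠ c.rep`, and `cyc β (cface c b) = c`.
* `P_per`: `∑_e #{h | face h = f, edge h = e} x_e = ∑_h [face h = f] x (edge h)` (`Finset.sum_comm`, `Finset.sum_boole`).
* `P_col`: by `cface_bij` `∑_c ∑_b P c b e = ∑_f #{h | face h = f, edge h = e} = #{h | edge h = e} = 2`.
* `good_iff`, `S_bad`: from `P_per`; `cface c true = β (cface c false)`, every face is a `cface`, and `β` is an
  involution. `S_bad`: all terms of the series `SM` vanish.
-/

namespace Pool.Agent.Helper64.MVB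

open Pool.Agent.Helper60.MV

private theorem pow_cases {H : Type} {τ : Equiv.Perm H} (hτ : IsPairing τ) (n : ℕ) :
    τ ^ n = 1 ∨ τ ^ n = τ := by
  have h2 : τ * τ = 1 := by
    ext h
    exact hτ.invol h
  induction n with
  | zero => left; simp
  | succ n ih =>
    rw [pow_succ]
    rcases ih with h | h
    · right; rw [h, one_mul]
    · left; rw [h, h2]

private theorem zpow_cases {H : Type} {τ : Equiv.Perm H} (hτ : IsPairing τ) (n : ℤ) :
    τ ^ n = 1 ∨ τ ^ n = τ := by
  have h2 : τ⁻¹ = τ := by
    ext h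
    rw [Equiv.Perm.inv_eq_iff_eq]
    exact (hτ.invol h).symm
  rcases Int.eq_nat_or_neg n with ⟨m, hm | hm⟩
  · rw [hm, zpow_natCast]
    exact pow_cases hτ m
  · rw [hm, zpow_neg, zpow_natCast]
    rcases pow_cases hτ m with h | h
    · left; rw [h, inv_one]
    · right; rw [h, h2]

theorem cyc_eq_iff {H : Type} {τ : Equiv.Perm H} (hτ : IsPairing τ) (a b : H) :
    cyc τ a = cyc τ b ↔ a = b ∨ a = τ b := by
  have hq : cyc τ a = cyc τ b ↔ τ.SameCycle a b :=
    Quotient.eq (r := Equiv.Perm.SameCycle.setoid τ)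
  rw [hq]
  constructor
  · rintro ⟨i, hi⟩
    rcases zpow_cases hτ i with h | h
    · left; rw [h] at hi; exact hi
    · right; rw [h] at hi; rw [← hi, hτ.invol]
  · rintro (h | h)
    · rw [h]
    · rw [h]; exact ⟨1, by rw [zpow_one, hτ.invol]⟩

private theorem cyc_rep {H : Type} {τ : Equiv.Perm H} (c : Cyc τ) : cyc τ c.rep = c :=
  Quotient.out_eq c

private theorem fiber_card {H : Type} [Fintype H] {τ : Equiv.Perm H} (hτ : IsPairing τ)
    (c : Cyc τ) : (Finset.univ.filter (fun h : H => cyc τ h = c)).card = 2 := by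
  classical
  have : (Finset.univ.filter (fun h : H => cyc τ h = c)) = {c.rep, τ c.rep} := by
    ext h
    rw [Finset.mem_filter, Finset.mem_insert, Finset.mem_singleton]
    conv_lhs => rw [← cyc_rep c, cyc_eq_iff hτ]
    simp
  rw [this, Finset.card_pair (hτ.fpf _).symm]

theorem card_cyc_pairing {H : Type} [Fintype H] {τ : Equiv.Perm H} (hτ : IsPairing τ) :
    2 * Fintype.card (Cyc τ) = Fintype.card H := by
  classical
  have h := Finset.card_eq_sum_card_fiberwise (f := cyc τ) (s := (Finset.univ : Finset H))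
    (t := Finset.univ) (fun _ _ => Finset.mem_coe.2 (Finset.mem_univ _))
  rw [Finset.sum_congr rfl (fun c _ => fiber_card hτ c)] at h
  rw [Finset.sum_const, smul_eq_mul, Finset.card_univ, Finset.card_univ] at h
  omega

theorem card_edge {H : Type} [Fintype H] {σ : Equiv.Perm H} (R : Conf σ) :
    2 * Fintype.card R.Edge = Fintype.card H :=
  card_cyc_pairing R.hτ

theorem cyc_cface {H : Type} {σ : Equiv.Perm H} (R : Conf σ) (c : R.Cyl) (b : Bool) :
    cyc R.β (R.cface c b) = c := by
  unfold Conf.cface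
  split_ifs with hb
  · rw [← cyc_rep c]
    conv_rhs => rw [← cyc_rep c]
    rw [cyc_eq_iff R.hβ]
    right
    rw [cyc_rep]
  · exact cyc_rep c

theorem cface_bij {H : Type} {σ : Equiv.Perm H} (R : Conf σ) :
    Function.Bijective (fun q : R.Cyl × Bool => R.cface q.1 q.2) := by
  constructor
  · rintro ⟨c, b⟩ ⟨c', b'⟩ h
    simp only at h
    have hc : c = c' := by rw [← cyc_cface R c b, h, cyc_cface]
    subst hc
    have hne : R.β c.rep ≠ c.rep := R.hβ.fpf _
    cases b <;> cases b' <;> simp [Conf.cface] at h ⊢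
    · exact hne h.symm
    · exact hne h
  · intro f
    have h : cyc R.β f = cyc R.β (cyc R.β f).rep := (cyc_rep _).symm
    rw [cyc_eq_iff R.hβ] at h
    rcases h with h | h
    · exact ⟨(cyc R.β f, false), by simp [Conf.cface]; exact h.symm⟩
    · exact ⟨(cyc R.β f, true), by simp [Conf.cface]; exact h.symm⟩

theorem P_per {H : Type} [Fintype H] {σ : Equiv.Perm H} (R : Conf σ) {V : Type}
    [CommSemiring V] (c : R.Cyl) (b : Bool) (x : R.Edge → V) :
    ∑ e, (R.P c b e : V) * x e = R.per x (R.cface c b) := by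
  classical
  unfold Conf.P Conf.per
  have h1 : ∀ e : R.Edge, (((Finset.univ.filter
      (fun h : H => R.face h = R.cface c b ∧ R.edge h = e)).card : ℕ) : V) * x e =
      ∑ h : H, if R.face h = R.cface c b ∧ R.edge h = e then x e else 0 := by
    intro e
    rw [← Finset.sum_filter, Finset.sum_const, nsmul_eq_mul]
  rw [Finset.sum_congr rfl (fun e _ => by convert h1 e), Finset.sum_comm]
  apply Finset.sum_congr rfl
  intro h _
  by_cases hf : R.face h = R.cface c b
  · simp [hf]
  · simp [hf]

theorem P_col {H : Type} [Fintype H] {σ : Equiv.Perm H} (R : Conf σ) (e : R.Edge) :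
    ∑ c, (R.P c false e + R.P c true e) = 2 := by
  classical
  have h1 : ∑ c, (R.P c false e + R.P c true e) = ∑ q : R.Cyl × Bool, R.P q.1 q.2 e := by
    rw [Fintype.sum_prod_type]
    apply Finset.sum_congr rfl
    intro c _
    rw [Fintype.sum_bool, add_comm]
  have h2 : ∑ q : R.Cyl × Bool, R.P q.1 q.2 e = ∑ f : R.Face,
      (Finset.univ.filter (fun h : H => R.face h = f ∧ R.edge h = e)).card := by
    rw [← (Equiv.ofBijective _ (cface_bij R)).sum_comp]
    apply Finset.sum_congr rfl
    intro q _
    unfold Conf.P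
    simp only [Equiv.ofBijective_apply]
  have h3 := Finset.card_eq_sum_card_fiberwise (f := R.face)
    (s := Finset.univ.filter (fun h : H => R.edge h = e))
    (t := Finset.univ) (fun _ _ => Finset.mem_coe.2 (Finset.mem_univ _))
  rw [h1, h2]
  have h4 : (Finset.univ.filter (fun h : H => R.edge h = e)).card = 2 := by
    exact fiber_card R.hτ e
  rw [← h4, h3]
  apply Finset.sum_congr rfl
  intro f _
  congr 1
  ext h
  simp [and_comm]

theorem good_iff {H : Type} [Fintype H] {σ : Equiv.Perm H} (R : Conf σ) :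
    R.Good ↔ ∃ u : R.Edge → ℕ, (∀ e, 0 < u e) ∧
      ∀ c, ∑ e, R.P c false e * u e = ∑ e, R.P c true e * u e := by
  constructor
  · rintro ⟨u, hu, hf⟩
    refine ⟨u, hu, fun c => ?_⟩
    have h1 := P_per R c false u
    have h2 := P_per R c true u
    simp only [Nat.cast_id] at h1 h2
    rw [h1, h2]
    have := hf (R.cface c false)
    simpa [Conf.cface] using this
  · rintro ⟨u, hu, hc⟩
    refine ⟨u, hu, fun f => ?_⟩
    have hc' : ∀ c, R.per u (R.cface c false) = R.per u (R.cface c true) := by
      intro c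
      have h1 := P_per R c false u
      have h2 := P_per R c true u
      simp only [Nat.cast_id] at h1 h2
      rw [← h1, ← h2]
      exact hc c
    obtain ⟨⟨c, b⟩, hq⟩ := (cface_bij R).2 f
    simp only at hq
    rw [← hq]
    cases b
    · have := hc' c
      simpa [Conf.cface] using this
    · have := (hc' c).symm
      simpa [Conf.cface, R.hβ.invol] using this

theorem S_bad {H : Type} [Fintype H] {σ : Equiv.Perm H} (R : Conf σ) (h : ¬ R.Good) (t : ℝ) :
    R.S t = 0 := by
  classical
  unfold Conf.S SM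
  rw [good_iff] at h
  push Not at h
  have : ∀ l : R.Edge → ℕ+, ¬ (∀ c, ∑ e, R.P c false e * (l e : ℕ) =
      ∑ e, R.P c true e * (l e : ℕ)) := by
    intro l hl
    obtain ⟨c, hc⟩ := h (fun e => (l e : ℕ)) (fun e => (l e).pos)
    exact hc (hl c)
  convert tsum_zero with l
  exact if_neg (this l)

theorem cyl_nonempty {H : Type} [Nonempty H] {σ : Equiv.Perm H} (R : Conf σ) :
    Nonempty R.Cyl :=
  ⟨cyc R.β (R.face (Classical.arbitrary H))⟩

end Pool.Agent.Helper64.MVB
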