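import Mathlib

/-!
Project MV, block B, module MVB-K1: Karamata, the limit for polynomials.

PROOF. By linearity (`Polynomial.induction_on'` or sum over the coefficients) it is enough to treat the
monomials `p = a X^k`: then `c n * (exp (-(t n)) * a exp (-(t n))^k) = a * (c n * exp (-(((k+1) t) n)))`, whose sum is
`a * F ((k+1) t)`, and `t ^ E * F ((k+1) t) = ((k+1) t)^E F ((k+1) t) / (k+1)^E → C / (k+1)^E` (compose with
`t ↦ (k+1) t`, which maps `𝓝[>] 0` to itself). On the other side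
`∫ x in Ioi 0, x^(E-1) * (exp (-x) * a * exp (-x)^k) = a * (E-1)! / (k+1)^E`
(`Real.integral_rpow_mul_exp_neg_mul_Ioi`, `Real.Gamma_nat_eq_factorial`); the integrands are integrable
(`Real.GammaIntegral_convergent` or the same lemma), needed for the additivity of the integral.
-/

namespace Pool.Agent.Helper64.MVB

open Finset MeasureTheory Filter Topology

private theorem kp_int (E : ℕ) (hE : 1 ≤ E) (m : ℕ) :
    ∫ u in Set.Ioi (0:ℝ), u ^ (E - 1) * Real.exp (-((m + 1 : ℝ) * u)) =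
      ((E - 1).factorial : ℝ) / ((m : ℝ) + 1) ^ E := by
  obtain ⟨e, rfl⟩ : ∃ e, E = e + 1 := ⟨E - 1, by omega⟩
  have hm : (0:ℝ) < (m : ℝ) + 1 := by positivity
  have h := Real.integral_rpow_mul_exp_neg_mul_Ioi (a := ((e : ℝ) + 1)) (r := (m : ℝ) + 1)
    (by positivity) hm
  have h2 : ∫ u in Set.Ioi (0:ℝ), u ^ (e + 1 - 1) * Real.exp (-((m + 1 : ℝ) * u)) =
      ∫ t in Set.Ioi (0:ℝ), t ^ ((e : ℝ) + 1 - 1) * Real.exp (-(((m : ℝ) + 1) * t)) := by
    apply setIntegral_congr_fun measurableSet_Ioi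
    intro u hu
    simp only [add_sub_cancel_right, Nat.add_sub_cancel, Real.rpow_natCast]
  rw [h2, h, Real.Gamma_nat_eq_factorial]
  rw [show (1 / ((m : ℝ) + 1)) ^ ((e : ℝ) + 1) = (1 / ((m : ℝ) + 1)) ^ (e + 1) by
    rw [← Real.rpow_natCast]; push_cast; rfl]
  rw [one_div, inv_pow]
  simp only [Nat.add_sub_cancel]
  field_simp

private theorem kp_integrable (E : ℕ) (hE : 1 ≤ E) (m : ℕ) :
    Integrable (fun u : ℝ => u ^ (E - 1) * Real.exp (-((m + 1 : ℝ) * u)))
      (volume.restrict (Set.Ioi (0:ℝ))) := by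
  by_contra hcon
  have h := integral_undef hcon
  rw [kp_int E hE m] at h
  have : (0:ℝ) < ((E - 1).factorial : ℝ) / ((m : ℝ) + 1) ^ E := by positivity
  linarith

private theorem kp_expand (E : ℕ) (p : Polynomial ℝ) (u : ℝ) :
    u ^ (E - 1) * (Real.exp (-u) * p.eval (Real.exp (-u))) =
      ∑ m ∈ range (p.natDegree + 1), p.coeff m *
        (u ^ (E - 1) * Real.exp (-((m + 1 : ℝ) * u))) := by
  rw [Polynomial.eval_eq_sum_range, Finset.mul_sum, Finset.mul_sum]
  apply Finset.sum_congr rfl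
  intro m _
  rw [← Real.exp_nat_mul, show -((m + 1 : ℝ) * u) = -u + (m : ℝ) * -u by ring, Real.exp_add]
  ring

private theorem kp_hasSum (c : ℕ → ℝ) (F : ℝ → ℝ)
    (hF : ∀ t, 0 < t → HasSum (fun n : ℕ => c n * Real.exp (-(t * n))) (F t))
    (p : Polynomial ℝ) (t : ℝ) (ht : 0 < t) :
    HasSum (fun n : ℕ => c n * (Real.exp (-(t * n)) * p.eval (Real.exp (-(t * n)))))
      (∑ m ∈ range (p.natDegree + 1), p.coeff m * F (((m : ℝ) + 1) * t)) := by
  have h1 : ∀ n : ℕ, c n * (Real.exp (-(t * n)) * p.eval (Real.exp (-(t * n)))) =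
      ∑ m ∈ range (p.natDegree + 1), p.coeff m *
        (c n * Real.exp (-((((m : ℝ) + 1) * t) * n))) := by
    intro n
    rw [Polynomial.eval_eq_sum_range, Finset.mul_sum, Finset.mul_sum]
    apply Finset.sum_congr rfl
    intro m _
    rw [← Real.exp_nat_mul,
      show -((((m : ℝ) + 1) * t) * n) = -(t * n) + (m : ℝ) * -(t * n) by ring, Real.exp_add]
    ring
  simp_rw [h1]
  apply hasSum_sum
  intro m _
  exact (hF _ (by positivity)).mul_left _

theorem kar_summable (c : ℕ → ℝ) (F : ℝ → ℝ)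
    (hF : ∀ t, 0 < t → HasSum (fun n : ℕ => c n * Real.exp (-(t * n))) (F t))
    (p : Polynomial ℝ) (t : ℝ) (ht : 0 < t) :
    Summable (fun n : ℕ => c n * (Real.exp (-(t * n)) * p.eval (Real.exp (-(t * n))))) := by
  exact (kp_hasSum c F hF p t ht).summable

theorem kar_integrable (E : ℕ) (hE : 1 ≤ E) (p : Polynomial ℝ) :
    IntegrableOn (fun x : ℝ => x ^ (E - 1) * (Real.exp (-x) * p.eval (Real.exp (-x))))
      (Set.Ioi (0:ℝ)) := by
  unfold IntegrableOn
  simp_rw [kp_expand E p]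
  exact integrable_finset_sum _ (fun m _ => (kp_integrable E hE m).const_mul _)

theorem kar_poly (c : ℕ → ℝ) (E : ℕ) (hE : 1 ≤ E) (C : ℝ) (F : ℝ → ℝ)
    (hF : ∀ t, 0 < t → HasSum (fun n : ℕ => c n * Real.exp (-(t * n))) (F t))
    (hlim : Tendsto (fun t => t ^ E * F t) (𝓝[>] (0:ℝ)) (𝓝 C)) (p : Polynomial ℝ) :
    Tendsto (fun t : ℝ => t ^ E *
      ∑' n : ℕ, c n * (Real.exp (-(t * n)) * p.eval (Real.exp (-(t * n)))))
      (𝓝[>] (0:ℝ)) (𝓝 (C / ((E - 1).factorial : ℝ) *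
        ∫ x in Set.Ioi (0:ℝ), x ^ (E - 1) * (Real.exp (-x) * p.eval (Real.exp (-x))))) := by
  have hfac : ((E - 1).factorial : ℝ) ≠ 0 := by positivity
  have hI : ∫ x in Set.Ioi (0:ℝ), x ^ (E - 1) * (Real.exp (-x) * p.eval (Real.exp (-x))) =
      ∑ m ∈ range (p.natDegree + 1), p.coeff m *
        (((E - 1).factorial : ℝ) / ((m : ℝ) + 1) ^ E) := by
    simp_rw [kp_expand E p]
    rw [integral_finset_sum _ (fun m _ => (kp_integrable E hE m).const_mul _)]
    apply Finset.sum_congr rfl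
    intro m _
    rw [integral_const_mul, kp_int E hE m]
  have hterm : ∀ m : ℕ, Tendsto (fun t : ℝ => t ^ E * F (((m : ℝ) + 1) * t)) (𝓝[>] (0:ℝ))
      (𝓝 (C / ((m : ℝ) + 1) ^ E)) := by
    intro m
    have hm : (0:ℝ) < (m : ℝ) + 1 := by positivity
    have hsc : Tendsto (fun t : ℝ => ((m : ℝ) + 1) * t) (𝓝[>] (0:ℝ)) (𝓝[>] (0:ℝ)) := by
      apply tendsto_nhdsWithin_iff.2
      constructor
      · have : Tendsto (fun t : ℝ => ((m : ℝ) + 1) * t) (𝓝 0) (𝓝 (((m : ℝ) + 1) * 0)) :=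
          (continuous_const.mul continuous_id).tendsto 0
        rw [mul_zero] at this
        exact this.mono_left nhdsWithin_le_nhds
      · filter_upwards [self_mem_nhdsWithin] with t ht
        exact mul_pos hm ht
    have h := (hlim.comp hsc).div_const (((m : ℝ) + 1) ^ E)
    refine h.congr' ?_
    filter_upwards [self_mem_nhdsWithin] with t ht
    simp only [Function.comp]
    rw [mul_pow]
    field_simp
  have hlimsum : Tendsto (fun t : ℝ => ∑ m ∈ range (p.natDegree + 1), p.coeff m *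
      (t ^ E * F (((m : ℝ) + 1) * t))) (𝓝[>] (0:ℝ))
      (𝓝 (∑ m ∈ range (p.natDegree + 1), p.coeff m * (C / ((m : ℝ) + 1) ^ E))) :=
    tendsto_finset_sum _ (fun m _ => (hterm m).const_mul _)
  have heq : C / ((E - 1).factorial : ℝ) *
      ∫ x in Set.Ioi (0:ℝ), x ^ (E - 1) * (Real.exp (-x) * p.eval (Real.exp (-x))) =
      ∑ m ∈ range (p.natDegree + 1), p.coeff m * (C / ((m : ℝ) + 1) ^ E) := by
    rw [hI, Finset.mul_sum]
    apply Finset.sum_congr rfl
    intro m _
    field_simp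
  rw [heq]
  refine hlimsum.congr' ?_
  filter_upwards [self_mem_nhdsWithin] with t ht
  rw [(kp_hasSum c F hF p t ht).tsum_eq, Finset.mul_sum]
  apply Finset.sum_congr rfl
  intro m _
  ring

end Pool.Agent.Helper64.MVB
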