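import Pool.Agent.Helper60.MV.B.Asm

/-!
Project MV, block B: the final statements in the form of `Iface.lean` (proofs: `Helper60/MV/B`).
-/

namespace Pool.Agent.Helper64.MVB

open Finset MeasureTheory Filter Topology Pool.Agent.Helper60.MV

/-- BLOCK B1 (matrix layer) -/
theorem blockB1 {ι κ : Type} [Fintype ι] [Fintype κ] [Nonempty κ] [DecidableEq κ]
    (P : κ → Bool → ι → ℕ) (hcol : ∀ e, ∑ c, (P c false e + P c true e) = 2)
    (hgood : ∃ u : ι → ℕ, (∀ e, 0 < u e) ∧ ∀ c, ∑ e, P c false e * u e = ∑ e, P c true e * u e)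
    (him : ∀ c c', ∃ z : ι → ℤ, ∀ c'', ∑ e, ((P c'' false e : ℤ) - P c'' true e) * z e =
      (if c'' = c then 1 else 0) + (if c'' = c' then 1 else 0)) :
    ∃ a : ℝ, Tendsto (fun t => t ^ (Fintype.card ι) * SM P t) (𝓝[>] (0:ℝ)) (𝓝 (2 * a)) ∧
      Tendsto (fun ε => AM P ε 0) (𝓝[>] (0:ℝ)) (𝓝 a) := by
  refine blockB1' P ⟨hcol, hgood, fun c c' => ?_⟩
  obtain ⟨z, hz⟩ := him c c'
  refine ⟨z, fun c'' => ?_⟩
  rw [hz c'']
  by_cases h1 : c'' = c <;> by_cases h2 : c'' = c' <;> simp [h1, h2]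

/-- BLOCK B2 (Karamata) -/
theorem karamata (c : ℕ → ℝ) (hc : ∀ n, 0 ≤ c n) (E : ℕ) (hE : 1 ≤ E) (C : ℝ) (F : ℝ → ℝ)
    (hF : ∀ t, 0 < t → HasSum (fun n : ℕ => c n * Real.exp (-(t * n))) (F t))
    (hlim : Tendsto (fun t => t ^ E * F t) (𝓝[>] (0:ℝ)) (𝓝 C)) :
    Tendsto (fun X : ℕ => (∑ n ∈ range (X + 1), c n) / (X : ℝ) ^ E) atTop
      (𝓝 (C / (E.factorial : ℝ))) :=
  karamata' c hc E hE C F hF hlim

/-- for a connected good configuration with odd vertices the volumes converge -/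
theorem conf_lim {H : Type} [Fintype H] [Nonempty H] {σ : Equiv.Perm H} (hodd : AllOdd σ)
    (R : Conf σ) (hR : R.Conn) (hg : R.Good) :
    Tendsto (fun t => t ^ (Fintype.card R.Edge) * R.S t) (𝓝[>] (0:ℝ)) (𝓝 (2 * R.limA)) ∧
      Tendsto (fun ε => R.A ε 0) (𝓝[>] (0:ℝ)) (𝓝 R.limA) := by
  obtain ⟨h0⟩ := ‹Nonempty H›
  haveI : Nonempty R.Cyl := ⟨cyc R.β (R.face h0)⟩
  obtain ⟨a, h1, h2⟩ := blockB1' R.P (adm_of_good R hodd hR hg)
  have h3 : Tendsto (fun ε => R.A ε 0) (𝓝[>] (0:ℝ)) (𝓝 a) := h2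
  have h4 : R.limA = a := h3.limUnder_eq
  rw [h4]
  exact ⟨h1, h3⟩

/-- BLOCK B from block A -/
theorem blockB_of_A {ρ : Type} [Fintype ρ] [Nonempty ρ] (K : ρ → ℕ) (hK : ∀ i, Odd (K i)) (E : ℕ)
    (hE : ∑ i, K i = 2 * E)
    (hA : ∀ t : ℝ, 0 < t → HasSum (fun L : ℕ => cL K L * Real.exp (-(t * L)))
      (by classical exact ∑ R ∈ univ.filter (fun R : Conf (rot K) => R.Conn), R.S t)) :
    Tendsto (fun N : ℕ => (∑ L ∈ range (2 * N + 1), cL K L) / (N : ℝ) ^ E) atTop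
      (𝓝 (2 ^ E * (2 * Yconn K) / (E.factorial : ℝ))) :=
  Pool.Agent.Helper60.MV.blockB_of_A K hK E hE hA

end Pool.Agent.Helper64.MVB
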