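import Pool.Agent.Helper64.MVB.Inc

/-!
Project MV, block B, module MVB-ODD: the image of the matrix `B` of a connected configuration with odd vertices
contains all `1_c + 1_c'`.

PROOF. Let `L = {v : R.Cyl → ℤ | ∃ z : R.Edge → ℤ, ∀ c, ∑ e, (P c false e - P c true e) * z e = v c}`: closed under
addition and subtraction. For a face `f = cface c b` let `s f = ±1_c` (`+` for `b = false`). For `z = 1_{edge h}`
one gets `s (face h) + s (face (τ h)) ∈ L` (the two half-edges `h, τ h` of the edge), and `face (τ h) = face (σ h)` since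
`(σ τ) (τ h) = σ h`. So (1) `s (face h) + s (face (σ h)) ∈ L` for all `h`.
Let `k` be the (odd) length of the `σ`-cycle of `h`, `σ^k h = h`. The alternating sum over `0 ≤ j < k` of (1) at `σ^j h`
is `2 s (face h)`: (2) `2 s (face h) ∈ L`, so `2 · 1_c ∈ L` for all `c`. (induction: `s (face h) - (-1)^j s (face (σ^j h)) ∈ L`.)
Put `c ~ c'` iff `1_c + 1_c' ∈ L`: reflexive by (2), symmetric, transitive by (2). With `C h` = cylinder of the face of
`h`: (1) and (2) give `C h ~ C (σ h)`; `C (τ h) = C (σ h)` so `C h ~ C (τ h)`; if `face b = β (face a)` then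
`C a = C b`. By `Conn` (induction on `Relation.EqvGen`) all `C h` are equivalent, and every cylinder is a `C h`.
PROOF of `rot_allOdd`: `(rot K)^n ⟨i, x⟩ = ⟨i, (finRotate (K i))^n x⟩`, and the minimal period of
`finRotate (K i)` at any point is `K i` (`finRotate` is `x ↦ x + 1` on `Fin (n+1)`: `finRotate_succ_apply`;
`K i ≥ 1`).
-/

namespace Pool.Agent.Helper64.MVB

open Pool.Agent.Helper60.MV

private theorem aux_min_dvd {α β : Type} (f : α → α) (g : β → β) (x : α) (y : β)
    (h : ∀ k, f^[k] x = x ↔ g^[k] y = y) :
    Function.minimalPeriod f x = Function.minimalPeriod g y := by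
  apply Nat.dvd_antisymm
  · have h1 : g^[Function.minimalPeriod g y] y = y := Function.iterate_minimalPeriod
    have h2 : Function.IsPeriodicPt f (Function.minimalPeriod g y) x := (h _).2 h1
    exact h2.minimalPeriod_dvd
  · have h1 : f^[Function.minimalPeriod f x] x = x := Function.iterate_minimalPeriod
    have h2 : Function.IsPeriodicPt g (Function.minimalPeriod f x) y := (h _).1 h1
    exact h2.minimalPeriod_dvd

private theorem aux_finRotate (m : ℕ) (x : Fin m) :
    Function.minimalPeriod (finRotate m) x = m := by
  obtain _ | n := m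
  · exact x.elim0
  · have hstep : ∀ y : Fin (n + 1), ((finRotate (n + 1)) y).val = (y.val + 1) % (n + 1) := by
      intro y
      rw [finRotate_apply, Fin.val_add, Fin.val_one']
      simp
    have hit : ∀ k : ℕ, ((finRotate (n + 1))^[k] x).val = (x.val + k) % (n + 1) := by
      intro k
      induction k with
      | zero => simp [Nat.mod_eq_of_lt x.2]
      | succ k ih =>
        rw [Function.iterate_succ_apply', hstep, ih, Nat.mod_add_mod]
        rfl
    apply Nat.dvd_antisymm
    · have h2 : Function.IsPeriodicPt (finRotate (n + 1)) (n + 1) x := by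
        unfold Function.IsPeriodicPt Function.IsFixedPt
        apply Fin.ext
        rw [hit]
        simp [Nat.mod_eq_of_lt x.2]
      exact h2.minimalPeriod_dvd
    · have h1 : (finRotate (n + 1))^[Function.minimalPeriod (finRotate (n + 1)) x] x = x :=
        Function.iterate_minimalPeriod
      have h2 := congrArg Fin.val h1
      rw [hit] at h2
      generalize Function.minimalPeriod (finRotate (n + 1)) x = k at h2
      have h3 : x.val + k ≡ x.val + 0 [MOD (n + 1)] := by
        unfold Nat.ModEq
        rw [h2, add_zero, Nat.mod_eq_of_lt x.2]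
      have h4 := Nat.ModEq.add_left_cancel' _ h3
      exact (Nat.modEq_zero_iff_dvd).1 h4

private theorem aux_edge_sum {H : Type} [Fintype H] {σ : Equiv.Perm H} (R : Conf σ) (h : H)
    (f : R.Face) :
    R.per (fun e : R.Edge => if e = R.edge h then (1 : ℤ) else 0) f =
      (if R.face h = f then 1 else 0) + (if R.face (R.τ h) = f then 1 else 0) := by
  classical
  have hne : h ≠ R.τ h := fun hh => R.hτ.fpf h hh.symm
  have h1 : ∀ a : H, (if R.face a = f then
      (if R.edge a = R.edge h then (1 : ℤ) else 0) else 0) =
      (if a = h then (if R.face h = f then (1 : ℤ) else 0) else 0) +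
      (if a = R.τ h then (if R.face (R.τ h) = f then (1 : ℤ) else 0) else 0) := by
    intro a
    have hiff : R.edge a = R.edge h ↔ a = h ∨ a = R.τ h := cyc_eq_iff R.hτ a h
    by_cases ha : a = h
    · subst ha
      simp [hne]
    · by_cases hb : a = R.τ h
      · subst hb
        have : R.edge (R.τ h) = R.edge h := hiff.2 (Or.inr rfl)
        simp [this, ha]
      · have : ¬ (R.edge a = R.edge h) := by
          rw [hiff]
          tauto
        simp [this, ha, hb]
  unfold Conf.per
  rw [Finset.sum_congr rfl (fun a _ => h1 a), Finset.sum_add_distrib]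
  simp

/-- the image of the matrix -/
private def imL {H : Type} [Fintype H] {σ : Equiv.Perm H} (R : Conf σ)
    (v : R.Cyl → ℤ) : Prop :=
  ∃ z : R.Edge → ℤ, ∀ c, ∑ e, ((R.P c false e : ℤ) - R.P c true e) * z e = v c

private theorem imL_add {H : Type} [Fintype H] {σ : Equiv.Perm H} (R : Conf σ)
    {v w : R.Cyl → ℤ} (hv : imL R v) (hw : imL R w) : imL R (fun c => v c + w c) := by
  obtain ⟨z, hz⟩ := hv
  obtain ⟨y, hy⟩ := hw
  refine ⟨fun e => z e + y e, fun c => ?_⟩
  show _ = v c + w c
  rw [← hz c, ← hy c, ← Finset.sum_add_distrib]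
  apply Finset.sum_congr rfl
  intro e _
  ring

private theorem imL_neg {H : Type} [Fintype H] {σ : Equiv.Perm H} (R : Conf σ)
    {v : R.Cyl → ℤ} (hv : imL R v) : imL R (fun c => - v c) := by
  obtain ⟨z, hz⟩ := hv
  refine ⟨fun e => - z e, fun c => ?_⟩
  show _ = - v c
  rw [← hz c, ← Finset.sum_neg_distrib]
  apply Finset.sum_congr rfl
  intro e _
  ring

private theorem imL_congr {H : Type} [Fintype H] {σ : Equiv.Perm H} (R : Conf σ)
    {v w : R.Cyl → ℤ} (hv : imL R v) (h : ∀ c, v c = w c) : imL R w := by
  have : v = w := funext h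
  rwa [this] at hv

/-- signed indicator of a face -/
private noncomputable def sgf {H : Type} {σ : Equiv.Perm H} (R : Conf σ) (f : R.Face)
    (c : R.Cyl) : ℤ :=
  (if f = R.cface c false then 1 else 0) - (if f = R.cface c true then 1 else 0)

private theorem imL_step {H : Type} [Fintype H] {σ : Equiv.Perm H} (R : Conf σ) (h : H) :
    imL R (fun c => sgf R (R.face h) c + sgf R (R.face (σ h)) c) := by
  have hf : R.face (R.τ h) = R.face (σ h) := by
    unfold Conf.face cyc
    apply Quotient.sound
    refine ⟨1, ?_⟩
    simp [R.hτ.invol h]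
  refine ⟨fun e => if e = R.edge h then (1 : ℤ) else 0, fun c => ?_⟩
  have h1 := P_per R c false (fun e => if e = R.edge h then (1 : ℤ) else 0)
  have h2 := P_per R c true (fun e => if e = R.edge h then (1 : ℤ) else 0)
  rw [aux_edge_sum] at h1 h2
  have h3 : ∑ e, ((R.P c false e : ℤ) - R.P c true e) * (if e = R.edge h then (1 : ℤ) else 0) =
      ∑ e, (R.P c false e : ℤ) * (if e = R.edge h then (1 : ℤ) else 0) -
      ∑ e, (R.P c true e : ℤ) * (if e = R.edge h then (1 : ℤ) else 0) := by
    rw [← Finset.sum_sub_distrib]
    apply Finset.sum_congr rfl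
    intro e _
    ring
  rw [h3, h1, h2, hf]
  unfold sgf
  ring

private theorem imL_two {H : Type} [Fintype H] {σ : Equiv.Perm H} (hodd : AllOdd σ)
    (R : Conf σ) (h : H) : imL R (fun c => sgf R (R.face h) c + sgf R (R.face h) c) := by
  have key : ∀ j : ℕ, imL R (fun c => sgf R (R.face h) c -
      (-1) ^ j * sgf R (R.face (σ^[j] h)) c) := by
    intro j
    induction j with
    | zero =>
      refine ⟨fun _ => 0, fun c => ?_⟩
      simp
    | succ j ih =>
      have hs := imL_step R (σ^[j] h)
      rcases Nat.even_or_odd j with he | ho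
      · refine imL_congr R (imL_add R ih hs) (fun c => ?_)
        rw [he.neg_one_pow, (Even.add_one he).neg_one_pow, Function.iterate_succ_apply']
        ring
      · refine imL_congr R (imL_add R ih (imL_neg R hs)) (fun c => ?_)
        rw [ho.neg_one_pow, (Odd.add_one ho).neg_one_pow, Function.iterate_succ_apply']
        ring
  have hk := key (Function.minimalPeriod σ h)
  have hit : σ^[Function.minimalPeriod σ h] h = h := Function.iterate_minimalPeriod
  rw [hit] at hk
  refine imL_congr R hk (fun c => ?_)
  rw [(hodd h).neg_one_pow]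
  ring

private theorem sgf_cface {H : Type} {σ : Equiv.Perm H} (R : Conf σ) (c : R.Cyl) (b : Bool)
    (c' : R.Cyl) : sgf R (R.cface c b) c' =
      (if b = true then -1 else 1) * (if c' = c then 1 else 0) := by
  have hinj := (cface_bij R).1
  have h1 : ∀ b' : Bool, R.cface c b = R.cface c' b' ↔ (c' = c ∧ b' = b) := by
    intro b'
    constructor
    · intro h
      have := @hinj (c, b) (c', b') h
      simp only [Prod.mk.injEq] at this
      exact ⟨this.1.symm, this.2.symm⟩
    · rintro ⟨rfl, rfl⟩
      rfl
  unfold sgf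
  simp only [h1]
  cases b <;> by_cases hc : c' = c <;> simp [hc]

theorem im_of_odd {H : Type} [Fintype H] {σ : Equiv.Perm H} (hodd : AllOdd σ) (R : Conf σ)
    (hR : R.Conn) (c c' : R.Cyl) : ∃ z : R.Edge → ℤ, ∀ c'' : R.Cyl,
      ∑ e, ((R.P c'' false e : ℤ) - R.P c'' true e) * z e =
        (if c'' = c then 1 else 0) + (if c'' = c' then 1 else 0) := by
  -- the indicator of the cylinder of a face
  have hsg : ∀ f : R.Face, ∃ s : ℤ, (s = 1 ∨ s = -1) ∧ ∀ c'' : R.Cyl,
      sgf R f c'' = s * (if c'' = cyc R.β f then 1 else 0) := by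
    intro f
    obtain ⟨⟨d, b⟩, hd⟩ := (cface_bij R).2 f
    simp only at hd
    subst hd
    refine ⟨if b = true then -1 else 1, ?_, fun c'' => ?_⟩
    · cases b <;> simp
    · rw [sgf_cface, cyc_cface]
  have htwo : ∀ h : H, imL R (fun c'' => (if c'' = cyc R.β (R.face h) then (1 : ℤ) else 0) +
      (if c'' = cyc R.β (R.face h) then 1 else 0)) := by
    intro h
    obtain ⟨s, hs, hf⟩ := hsg (R.face h)
    have h2 := imL_two hodd R h
    rcases hs with rfl | rfl
    · refine imL_congr R h2 (fun c'' => ?_)
      rw [hf]
      ring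
    · refine imL_congr R (imL_neg R h2) (fun c'' => ?_)
      rw [hf]
      ring
  have hstep : ∀ h : H, imL R (fun c'' => (if c'' = cyc R.β (R.face h) then (1 : ℤ) else 0) +
      (if c'' = cyc R.β (R.face (σ h)) then 1 else 0)) := by
    intro h
    obtain ⟨s, hs, hf⟩ := hsg (R.face h)
    obtain ⟨s', hs', hf'⟩ := hsg (R.face (σ h))
    have h1 := imL_step R h
    have h2 := htwo h
    have h3 := htwo (σ h)
    rcases hs with rfl | rfl <;> rcases hs' with rfl | rfl
    · refine imL_congr R h1 (fun c'' => ?_)
      rw [hf, hf']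
      ring
    · refine imL_congr R (imL_add R h1 h3) (fun c'' => ?_)
      rw [hf, hf']
      ring
    · refine imL_congr R (imL_add R h1 h2) (fun c'' => ?_)
      rw [hf, hf']
      ring
    · refine imL_congr R (imL_neg R h1) (fun c'' => ?_)
      rw [hf, hf']
      ring
  have hconn : ∀ h h' : H, imL R (fun c'' => (if c'' = cyc R.β (R.face h) then (1 : ℤ) else 0) +
      (if c'' = cyc R.β (R.face h') then 1 else 0)) := by
    intro h h'
    have hg := hR h h'
    induction hg with
    | rel a b hab =>
      rcases hab with rfl | rfl | hab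
      · exact hstep a
      · have hf : R.face (R.τ a) = R.face (σ a) := by
          unfold Conf.face cyc
          apply Quotient.sound
          refine ⟨1, ?_⟩
          simp [R.hτ.invol a]
        rw [hf]
        exact hstep a
      · have hc : cyc R.β (R.face b) = cyc R.β (R.face a) := by
          rw [hab]
          unfold cyc
          apply Quotient.sound
          exact ⟨-1, by simp⟩
        rw [hc]
        exact htwo a
    | refl a => exact htwo a
    | symm a b _ ih =>
      refine imL_congr R ih (fun c'' => ?_)
      ring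
    | trans a b d _ _ ih1 ih2 =>
      refine imL_congr R (imL_add R (imL_add R ih1 ih2) (imL_neg R (htwo b))) (fun c'' => ?_)
      ring
  have hex : ∀ d : R.Cyl, ∃ h : H, cyc R.β (R.face h) = d := by
    intro d
    obtain ⟨h, hh⟩ := Quotient.exists_rep (R.cface d false)
    refine ⟨h, ?_⟩
    have : R.face h = R.cface d false := hh
    rw [this]
    exact cyc_cface R d false
  obtain ⟨h, rfl⟩ := hex c
  obtain ⟨h', rfl⟩ := hex c'
  exact hconn h h'

theorem rot_allOdd {ρ : Type} (K : ρ → ℕ) (hK : ∀ i, Odd (K i)) : AllOdd (rot K) := by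
  rintro ⟨i, x⟩
  have hit : ∀ k : ℕ, (rot K)^[k] (⟨i, x⟩ : HK K) = ⟨i, (finRotate (K i))^[k] x⟩ := by
    intro k
    induction k with
    | zero => rfl
    | succ k ih =>
      rw [Function.iterate_succ_apply', Function.iterate_succ_apply', ih]
      rfl
  have h1 : Function.minimalPeriod (rot K) (⟨i, x⟩ : HK K) =
      Function.minimalPeriod (finRotate (K i)) x := by
    apply aux_min_dvd
    intro k
    rw [hit]
    constructor
    · intro h
      simpa using h
    · intro h
      rw [h]
  rw [h1, aux_finRotate]
  exact hK i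

end Pool.Agent.Helper64.MVB
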