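import Pool.Agent.Helper60.MV.Defs

/-!
Project MV, block B, module MVB-PHI: facts on `phi w = w / (exp w - 1)` (`phi 0 = 1`).

PROOF.  `phi_pos`: `w` and `exp w - 1` have the same sign (`Real.add_one_le_exp`).
`phi_anti`: for `w ≠ 0` one has `(exp w - 1) / w = ∫ s in 0..1, exp (s w)` (and both sides are `1` at
`w = 0` for the right side): so `phi w = 1 / g w` with `g w = ∫ s in 0..1, exp (s w)`, positive, monotone
and continuous. (Or: slopes of the convex function `exp`, `convexOn_exp`; continuity at `0` from
`HasDerivAt exp 1 0`.)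
`phi_shift`: `phi w * exp w = phi (-w)`, and `phi` is antitone:
  `phi (w + η) * exp (w + η) = phi (-w - η) ≥ phi (-w) = phi w * exp w`.
`phi_le_exp`: for `w > 0` this is `w ≤ exp (w/2) - exp (-w/2) = 2 sinh (w/2)` (`Real.self_le_sinh_iff`),
same for `w < 0`.
`phi_le_exp'`: for `-1 ≤ w ≤ 0`: `phi w ≤ exp (-w/2) ≤ exp (1/2) ≤ 4 ≤ 4 exp (-9w/10)`.
For `w > 0` the claim is `w exp (-w/10) ≤ 4 (1 - exp (-w))`: for `w ≤ 3` use `1 - exp (-w) ≥ w / (1 + w) ≥ w / 4`;
for `w ≥ 3` use `w exp (-w/10) ≤ 10 exp (-1) ≤ 3.68` (`Real.add_one_le_exp (w/10 - 1)`) and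
`4 (1 - exp (-3)) ≥ 3.8`.
-/

namespace Pool.Agent.Helper64.MVB

open Pool.Agent.Helper60.MV

private noncomputable def gphi (w : ℝ) : ℝ := if w = 0 then 1 else (Real.exp w - 1) / w

private theorem phi_eq_inv (w : ℝ) : phi w = (gphi w)⁻¹ := by
  unfold phi gphi
  split_ifs with h
  · simp
  · rw [inv_div]

private theorem gphi_mono : Monotone gphi := by
  intro x y hxy
  unfold gphi
  by_cases hx : x = 0
  · by_cases hy : y = 0
    · simp [hx, hy]
    · have hy0 : 0 < y := lt_of_le_of_ne (by rw [← hx]; exact hxy) (Ne.symm hy)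
      rw [if_pos hx, if_neg hy, le_div_iff₀ hy0]
      have := Real.add_one_le_exp y
      linarith
  · by_cases hy : y = 0
    · have hx0 : x < 0 := lt_of_le_of_ne (by rw [← hy]; exact hxy) hx
      rw [if_neg hx, if_pos hy, div_le_iff_of_neg hx0]
      have := Real.add_one_le_exp x
      linarith
    · rw [if_neg hx, if_neg hy]
      have h := convexOn_exp.secant_mono (a := 0) (x := x) (y := y) (Set.mem_univ _)
        (Set.mem_univ _) (Set.mem_univ _) hx hy hxy
      simpa using h

private theorem gphi_pos (w : ℝ) : 0 < gphi w := by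
  unfold gphi
  split_ifs with h
  · exact one_pos
  · rcases lt_or_gt_of_ne h with h' | h'
    · apply div_pos_of_neg_of_neg _ h'
      have := Real.exp_lt_one_iff.mpr h'
      linarith
    · apply div_pos _ h'
      have := Real.add_one_lt_exp h
      linarith

theorem phi_pos (w : ℝ) : 0 < phi w := by
  rw [phi_eq_inv]
  exact inv_pos.mpr (gphi_pos w)

theorem phi_continuous : Continuous phi := by
  have h1 : phi = fun w => (dslope Real.exp 0 w)⁻¹ := by
    funext w
    rw [phi_eq_inv]
    unfold gphi
    by_cases h : w = 0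
    · rw [if_pos h, h, dslope_same]
      simp
    · rw [if_neg h, dslope_of_ne _ h, slope_def_field]
      simp
  have h2 : Continuous (dslope Real.exp 0) := by
    rw [← continuousOn_univ]
    rw [continuousOn_dslope Filter.univ_mem]
    exact ⟨Real.continuous_exp.continuousOn, Real.differentiable_exp.differentiableAt⟩
  rw [h1]
  apply h2.inv₀
  intro w
  have : dslope Real.exp 0 w = gphi w := by
    unfold gphi
    by_cases h : w = 0
    · rw [if_pos h, h, dslope_same]
      simp
    · rw [if_neg h, dslope_of_ne _ h, slope_def_field]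
      simp
  rw [this]
  exact (gphi_pos w).ne'

theorem phi_anti : Antitone phi := by
  intro x y hxy
  rw [phi_eq_inv, phi_eq_inv]
  exact inv_anti₀ (gphi_pos x) (gphi_mono hxy)

private theorem phi_neg (w : ℝ) : phi (-w) = Real.exp w * phi w := by
  unfold phi
  by_cases h : w = 0
  · simp [h]
  · have h' : -w ≠ 0 := neg_ne_zero.mpr h
    rw [if_neg h, if_neg h', Real.exp_neg]
    have h1 : Real.exp w - 1 ≠ 0 := by
      intro h2
      apply h
      have h3 : Real.exp w = 1 := by linarith
      exact (Real.exp_eq_one_iff w).mp h3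
    have h2 : (Real.exp w)⁻¹ - 1 ≠ 0 := by
      intro h3
      apply h1
      have h4 : (Real.exp w)⁻¹ = 1 := by linarith
      rw [inv_eq_one] at h4
      rw [h4]
      ring
    have h3 : Real.exp w ≠ 0 := (Real.exp_pos w).ne'
    have h4 : (Real.exp w)⁻¹ - 1 = -(Real.exp w - 1) / Real.exp w := by
      field_simp
      ring
    rw [h4, div_div_eq_mul_div, neg_mul, neg_div_neg_eq]
    ring

theorem phi_shift (w η : ℝ) (hη : 0 ≤ η) : Real.exp (-η) * phi w ≤ phi (w + η) := by
  have h1 : phi (-w) ≤ phi (-(w + η)) := phi_anti (by linarith)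
  rw [phi_neg, phi_neg, Real.exp_add, mul_assoc] at h1
  have h2 := le_of_mul_le_mul_left h1 (Real.exp_pos w)
  have h3 : Real.exp (-η) * phi w ≤ Real.exp (-η) * (Real.exp η * phi (w + η)) :=
    mul_le_mul_of_nonneg_left h2 (Real.exp_pos _).le
  rw [← mul_assoc, ← Real.exp_add, neg_add_cancel, Real.exp_zero, one_mul] at h3
  exact h3

theorem phi_le_exp (w : ℝ) : phi w ≤ Real.exp (-(w / 2)) := by
  unfold phi
  split_ifs with h
  · simp [h]
  · have he : Real.exp (-(w / 2)) * (Real.exp w - 1) = 2 * Real.sinh (w / 2) := by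
      rw [Real.sinh_eq, mul_sub, ← Real.exp_add]
      have : -(w / 2) + w = w / 2 := by ring
      rw [this]
      ring
    rcases lt_or_gt_of_ne h with h' | h'
    · have h1 : Real.exp w - 1 < 0 := by
        have := Real.exp_lt_one_iff.mpr h'
        linarith
      rw [div_le_iff_of_neg h1, he]
      have := Real.sinh_le_self_iff.mpr (show w / 2 ≤ 0 by linarith)
      linarith
    · have h1 : 0 < Real.exp w - 1 := by
        have := Real.add_one_lt_exp h
        linarith
      rw [div_le_iff₀ h1, he]
      have := Real.self_le_sinh_iff.mpr (show 0 ≤ w / 2 by linarith)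
      linarith

theorem phi_le_exp' (w : ℝ) (hw : -1 ≤ w) : phi w ≤ 4 * Real.exp (-(9 / 10 * w)) := by
  have he1 := Real.exp_one_gt_d9
  have he2 := Real.exp_one_lt_d9
  rcases le_or_gt w 0 with h | h
  · have h1 := phi_le_exp w
    have h2 : Real.exp (-(w / 2)) ≤ Real.exp 1 := Real.exp_le_exp.mpr (by linarith)
    have h3 : (1:ℝ) ≤ Real.exp (-(9 / 10 * w)) := Real.one_le_exp (by linarith)
    linarith
  · unfold phi
    rw [if_neg h.ne']
    have h2 : 0 < Real.exp w - 1 := by
      have := Real.add_one_lt_exp h.ne'
      linarith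
    rw [div_le_iff₀ h2]
    have h3 : 4 * Real.exp (-(9 / 10 * w)) * (Real.exp w - 1)
        = Real.exp (w / 10) * (4 * (1 - Real.exp (-w))) := by
      have e1 : Real.exp (-(9 / 10 * w)) * Real.exp w = Real.exp (w / 10) := by
        rw [← Real.exp_add]; congr 1; ring
      have e2 : Real.exp (w / 10) * Real.exp (-w) = Real.exp (-(9 / 10 * w)) := by
        rw [← Real.exp_add]; congr 1; ring
      linear_combination 4 * e1 + 4 * e2
    rw [h3]
    have h4 : w * Real.exp (-(w / 10)) ≤ 4 * (1 - Real.exp (-w)) := by
      rcases le_or_gt w 3 with h5 | h5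
      · have h6 : w * Real.exp (-(w / 10)) ≤ w := by
          have : Real.exp (-(w / 10)) ≤ 1 := Real.exp_le_one_iff.mpr (by linarith)
          nlinarith
        have h7 : Real.exp (-w) * (1 + w) ≤ 1 := by
          have h8 := Real.add_one_le_exp w
          have h9 : Real.exp (-w) * (1 + w) ≤ Real.exp (-w) * Real.exp w :=
            mul_le_mul_of_nonneg_left (by linarith) (Real.exp_pos _).le
          rw [← Real.exp_add, neg_add_cancel, Real.exp_zero] at h9
          exact h9
        have h10 : 0 < Real.exp (-w) := Real.exp_pos _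
        have h11 : w ≤ 4 * (1 - Real.exp (-w)) := by
          have h12 : Real.exp (-w) ≤ 1 / (1 + w) := by
            rw [le_div_iff₀ (by linarith)]
            exact h7
          have h13 : w / 4 ≤ 1 - 1 / (1 + w) := by
            have : 1 - 1 / (1 + w) = w / (1 + w) := by
              field_simp
              ring
            rw [this]
            apply div_le_div_of_nonneg_left h.le (by linarith) (by linarith)
          linarith
        linarith
      · have h6 : w * Real.exp (-(w / 10)) ≤ 10 * Real.exp (-1) := by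
          have h7 := Real.add_one_le_exp (w / 10 - 1)
          have h8 : w ≤ 10 * Real.exp (w / 10 - 1) := by linarith
          have h9 : w * Real.exp (-(w / 10)) ≤ 10 * Real.exp (w / 10 - 1) * Real.exp (-(w / 10)) :=
            mul_le_mul_of_nonneg_right h8 (Real.exp_pos _).le
          rw [mul_assoc, ← Real.exp_add] at h9
          have h10 : w / 10 - 1 + -(w / 10) = -1 := by ring
          rw [h10] at h9
          exact h9
        have h7 : 10 * Real.exp (-1) ≤ 37 / 10 := by
          rw [Real.exp_neg]
          have h8 : (Real.exp 1)⁻¹ ≤ (27 / 10 : ℝ)⁻¹ * 1 := by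
            rw [mul_one]
            exact inv_anti₀ (by norm_num) (by linarith)
          have h9 : (27182818283 / 10000000000 : ℝ) ≤ Real.exp 1 := by
            have : (2.7182818283 : ℝ) = 27182818283 / 10000000000 := by norm_num
            linarith
          have h10 : (Real.exp 1)⁻¹ ≤ (27182818283 / 10000000000 : ℝ)⁻¹ :=
            inv_anti₀ (by norm_num) h9
          have h11 : 10 * (27182818283 / 10000000000 : ℝ)⁻¹ ≤ 37 / 10 := by norm_num
          linarith
        have h8 : Real.exp (-w) ≤ 1 / 20 := by
          have h9 : Real.exp (-w) ≤ Real.exp (-3) := Real.exp_le_exp.mpr (by linarith)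
          have h10 : (20:ℝ) ≤ Real.exp 3 := by
            have h11 : Real.exp 3 = Real.exp 1 ^ 3 := by
              rw [← Real.exp_nat_mul]; norm_num
            rw [h11]
            have h12 : (2718 / 1000 : ℝ) ≤ Real.exp 1 := by
              have : (2.7182818283 : ℝ) = 27182818283 / 10000000000 := by norm_num
              linarith
            have h13 : (2718 / 1000 : ℝ) ^ 3 ≤ Real.exp 1 ^ 3 :=
              pow_le_pow_left₀ (by norm_num) h12 3
            have h14 : (20:ℝ) ≤ (2718 / 1000 : ℝ) ^ 3 := by norm_num
            linarith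
          have h15 : Real.exp (-3) ≤ 1 / 20 := by
            rw [Real.exp_neg, one_div]
            exact inv_anti₀ (by norm_num) h10
          linarith
        linarith
    have h5 := mul_le_mul_of_nonneg_left h4 (Real.exp_pos (w / 10)).le
    have h6 : Real.exp (w / 10) * (w * Real.exp (-(w / 10))) = w := by
      have e1 : Real.exp (w / 10) * Real.exp (-(w / 10)) = 1 := by
        rw [← Real.exp_add, add_neg_cancel, Real.exp_zero]
      linear_combination w * e1
    rw [h6] at h5
    exact h5

end Pool.Agent.Helper64.MVB
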