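import Mathlib

/-!
Project MV, block B, module MVB-RS1: one dimensional Riemann sums over all integers and alternating sums.

`box A t = {d : ℤ | |d| ≤ ⌈A/t⌉}`.

PROOF of `riem_line`. For `|d| > ⌈A/t⌉` one has `|t d| ≥ A`, so `g (t d) = 0`. Put `G t x = g (t * ⌈x/t⌉)`
(`Int.ceil`). On `Ioc (t (d-1)) (t d)` it is the constant `g (t d)`; it vanishes for `|x| ≥ A + t`; so
`∫ G t = t * ∑_{d ∈ box} g (t d)` (finite disjoint union of intervals, `intervalIntegral.sum_integral_adjacent_intervals`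
or `MeasureTheory.integral_biUnion_finset`/`integral_finset_biUnion`).
As `t → 0+`, `t ⌈x/t⌉ → x`, so `G t x → g x`, dominated (for `t ≤ 1`) by `M * indicator [-(A+1), A+1]`, `M = sup |g|`.
Dominated convergence.
(ALTERNATIVE: uniform continuity of `g` and direct estimates.)

PROOF of `riem_alt`. `∑_{d ∈ box A t} (-1)^d g (t d) = 2 ∑_{m ∈ box A (2t)} g (2 t m) - ∑_{d ∈ box A t} g (t d)` (both boxes
contain all `d` (resp. `m`) with nonzero term; the even `d` are `d = 2m`). Multiply by `t`: both terms tend to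
`∫ g` (`riem_line` at `2t` and at `t`).
-/

namespace Pool.Agent.Helper64.MVB

open MeasureTheory Filter Topology

/-- the integers of absolute value at most `⌈A/t⌉` -/
noncomputable def box (A t : ℝ) : Finset ℤ := Finset.Icc (-(⌈A / t⌉₊ : ℤ)) (⌈A / t⌉₊ : ℤ)

private theorem sum_box (f : ℤ → ℝ) (N : ℕ) :
    ∑ d ∈ Finset.Icc (-(N : ℤ)) (N : ℤ), f d = ∑ k ∈ Finset.range (2 * N + 1), f (-(N : ℤ) + k) := by
  symm
  refine Finset.sum_bij (fun k _ => -(N : ℤ) + (k : ℤ)) ?_ ?_ ?_ ?_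
  · intro k hk
    rw [Finset.mem_range] at hk
    rw [Finset.mem_Icc]
    constructor <;> omega
  · intro a _ b _ h
    have h' : -(N : ℤ) + (a : ℤ) = -(N : ℤ) + (b : ℤ) := h
    omega
  · intro d hd
    rw [Finset.mem_Icc] at hd
    refine ⟨(d + N).toNat, ?_, ?_⟩
    · rw [Finset.mem_range]
      omega
    · show -(N : ℤ) + (((d + N).toNat : ℕ) : ℤ) = d
      omega
  · intro k _
    rfl

private theorem ceil_integral (g : ℝ → ℝ) (A : ℝ) (hs : ∀ x, A ≤ |x| → g x = 0)
    (t : ℝ) (ht : 0 < t) :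
    t * ∑ d ∈ box A t, g (t * (d : ℝ)) = ∫ x : ℝ, g (t * (⌈x / t⌉ : ℝ)) := by
  set N : ℕ := ⌈A / t⌉₊ with hN
  have hAN : A ≤ t * N := by
    have h1 : A / t ≤ (N : ℝ) := Nat.le_ceil _
    rw [div_le_iff₀ ht] at h1
    linarith
  have hsupp : Function.support (fun x : ℝ => g (t * (⌈x / t⌉ : ℝ))) ⊆
      Set.Ioc (t * (-(N : ℝ) - 1)) (t * (N : ℝ)) := by
    intro x hx
    rw [Function.mem_support] at hx
    by_contra hcon
    apply hx
    apply hs
    rw [Set.mem_Ioc, not_and_or, not_lt, not_le] at hcon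
    rcases hcon with h | h
    · have h1 : x / t ≤ ((-(N : ℤ) - 1 : ℤ) : ℝ) := by
        rw [div_le_iff₀ ht]
        push_cast
        linarith
      have h2 : ⌈x / t⌉ ≤ -(N : ℤ) - 1 := Int.ceil_le.2 h1
      have h3 : ((⌈x / t⌉ : ℤ) : ℝ) ≤ -(N : ℝ) - 1 := by exact_mod_cast h2
      have h4 : t * ((⌈x / t⌉ : ℤ) : ℝ) ≤ t * (-(N : ℝ) - 1) := mul_le_mul_of_nonneg_left h3 ht.le
      have h5 := neg_le_abs (t * ((⌈x / t⌉ : ℤ) : ℝ))
      nlinarith
    · have h1 : ((N : ℤ) : ℝ) < x / t := by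
        rw [lt_div_iff₀ ht]
        push_cast
        linarith
      have h2 : (N : ℤ) < ⌈x / t⌉ := Int.lt_ceil.2 h1
      have h3 : (N : ℝ) ≤ ((⌈x / t⌉ : ℤ) : ℝ) := by exact_mod_cast h2.le
      have h4 : t * (N : ℝ) ≤ t * ((⌈x / t⌉ : ℤ) : ℝ) := mul_le_mul_of_nonneg_left h3 ht.le
      have h5 := le_abs_self (t * ((⌈x / t⌉ : ℤ) : ℝ))
      linarith
  rw [← intervalIntegral.integral_eq_integral_of_support_subset hsupp]
  have hpiece : ∀ k : ℕ, ∀ x ∈ Set.Ioc (t * (-(N : ℝ) - 1 + k)) (t * (-(N : ℝ) - 1 + ((k + 1 : ℕ) : ℝ))),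
      g (t * (⌈x / t⌉ : ℝ)) = g (t * ((-(N : ℤ) + k : ℤ) : ℝ)) := by
    intro k x hx
    have h1 : ⌈x / t⌉ = -(N : ℤ) + k := by
      rw [Int.ceil_eq_iff]
      obtain ⟨hx1, hx2⟩ := hx
      constructor
      · rw [lt_div_iff₀ ht]
        push_cast
        linarith
      · rw [div_le_iff₀ ht]
        push_cast
        push_cast at hx2
        linarith
    rw [h1]
  have hle : ∀ k : ℕ, t * (-(N : ℝ) - 1 + k) ≤ t * (-(N : ℝ) - 1 + ((k + 1 : ℕ) : ℝ)) := by
    intro k
    apply mul_le_mul_of_nonneg_left _ ht.le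
    push_cast
    linarith
  have hint : ∀ k : ℕ, ∫ x in (t * (-(N : ℝ) - 1 + k))..(t * (-(N : ℝ) - 1 + ((k + 1 : ℕ) : ℝ))),
      g (t * (⌈x / t⌉ : ℝ)) = t * g (t * ((-(N : ℤ) + k : ℤ) : ℝ)) := by
    intro k
    rw [intervalIntegral.integral_of_le (hle k), setIntegral_congr_fun measurableSet_Ioc (hpiece k),
      ← intervalIntegral.integral_of_le (hle k), intervalIntegral.integral_const, smul_eq_mul]
    congr 1
    push_cast
    ring
  have hii : ∀ k < 2 * N + 1, IntervalIntegrable (fun x : ℝ => g (t * (⌈x / t⌉ : ℝ))) volume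
      ((fun k : ℕ => t * (-(N : ℝ) - 1 + k)) k) ((fun k : ℕ => t * (-(N : ℝ) - 1 + k)) (k + 1)) := by
    intro k _
    rw [intervalIntegrable_iff_integrableOn_Ioc_of_le (hle k)]
    refine (integrableOn_const (C := g (t * ((-(N : ℤ) + k : ℤ) : ℝ))) ?_).congr_fun
      (fun x hx => (hpiece k x hx).symm) measurableSet_Ioc
    exact measure_Ioc_lt_top.ne
  have hsum := intervalIntegral.sum_integral_adjacent_intervals hii
  have e0 : t * (-(N : ℝ) - 1 + ((0 : ℕ) : ℝ)) = t * (-(N : ℝ) - 1) := by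
    push_cast
    ring
  have e1 : t * (-(N : ℝ) - 1 + ((2 * N + 1 : ℕ) : ℝ)) = t * (N : ℝ) := by
    push_cast
    ring
  simp only [e0, e1] at hsum
  rw [← hsum, Finset.sum_congr rfl (fun k _ => hint k), ← Finset.mul_sum]
  congr 1
  unfold box
  rw [← hN, sum_box (fun d => g (t * (d : ℝ))) N]

private theorem hcs (g : ℝ → ℝ) (A : ℝ) (hs : ∀ x, A ≤ |x| → g x = 0) : HasCompactSupport g := by
  refine HasCompactSupport.intro (isCompact_Icc (a := -A) (b := A)) ?_
  intro x hx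
  apply hs
  rw [Set.mem_Icc, not_and_or, not_le, not_le] at hx
  rcases hx with h | h
  · have := neg_le_abs x
    linarith
  · have := le_abs_self x
    linarith

theorem riem_line (g : ℝ → ℝ) (hg : Continuous g) (A : ℝ) (hA : 0 < A)
    (hs : ∀ x, A ≤ |x| → g x = 0) :
    Tendsto (fun t : ℝ => t * ∑ d ∈ box A t, g (t * (d : ℝ))) (𝓝[>] (0:ℝ)) (𝓝 (∫ x : ℝ, g x)) := by
  obtain ⟨M, hM⟩ := hg.bounded_above_of_compact_support (hcs g A hs)
  have hM0 : 0 ≤ M := (norm_nonneg _).trans (hM 0)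
  have hclose : ∀ t : ℝ, 0 < t → ∀ x : ℝ, |t * (⌈x / t⌉ : ℝ) - x| ≤ t := by
    intro t ht x
    have h1 := Int.le_ceil (x / t)
    have h2 := Int.ceil_lt_add_one (x / t)
    rw [div_le_iff₀ ht] at h1
    have h3 : (⌈x / t⌉ : ℝ) * t < x + t := by
      have h4 := mul_lt_mul_of_pos_right h2 ht
      rw [add_mul, div_mul_cancel₀ _ ht.ne'] at h4
      linarith
    rw [abs_le]
    constructor <;> nlinarith
  have key : Tendsto (fun t : ℝ => ∫ x : ℝ, g (t * (⌈x / t⌉ : ℝ))) (𝓝[>] (0:ℝ)) (𝓝 (∫ x : ℝ, g x)) := by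
    refine tendsto_integral_filter_of_dominated_convergence
      ((Set.Icc (-(A + 1)) (A + 1)).indicator (fun _ => M)) ?_ ?_ ?_ ?_
    · refine Eventually.of_forall (fun t => ?_)
      apply Measurable.aestronglyMeasurable
      apply hg.measurable.comp
      apply Measurable.const_mul
      exact measurable_from_top.comp (Int.measurable_ceil.comp (measurable_id.div_const t))
    · have h1 : ∀ᶠ t : ℝ in 𝓝[>] (0:ℝ), t ∈ Set.Ioo (0:ℝ) 1 :=
        Ioo_mem_nhdsGT one_pos
      filter_upwards [h1] with t ht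
      refine Eventually.of_forall (fun x => ?_)
      by_cases hx : x ∈ Set.Icc (-(A + 1)) (A + 1)
      · rw [Set.indicator_of_mem hx]
        exact hM _
      · rw [Set.indicator_of_notMem hx]
        have h2 : g (t * (⌈x / t⌉ : ℝ)) = 0 := by
          apply hs
          have h3 := hclose t ht.1 x
          rw [abs_le] at h3
          have h4 := ht.2
          rw [Set.mem_Icc, not_and_or, not_le, not_le] at hx
          rcases hx with h | h
          · have := neg_le_abs (t * (⌈x / t⌉ : ℝ))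
            linarith
          · have := le_abs_self (t * (⌈x / t⌉ : ℝ))
            linarith
        rw [h2, norm_zero]
    · exact (integrable_indicator_iff measurableSet_Icc).2
        (integrableOn_const measure_Icc_lt_top.ne)
    · refine Eventually.of_forall (fun x => ?_)
      have h1 : Tendsto (fun t : ℝ => t * (⌈x / t⌉ : ℝ)) (𝓝[>] (0:ℝ)) (𝓝 x) := by
        rw [tendsto_iff_norm_sub_tendsto_zero]
        refine squeeze_zero' (Eventually.of_forall (fun t => norm_nonneg _)) ?_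
          (tendsto_id.mono_left nhdsWithin_le_nhds)
        filter_upwards [self_mem_nhdsWithin] with t ht
        exact hclose t ht x
      exact (hg.tendsto x).comp h1
  refine key.congr' ?_
  filter_upwards [self_mem_nhdsWithin] with t ht
  exact (ceil_integral g A hs t ht).symm

private theorem zero_out (g : ℝ → ℝ) (A : ℝ) (hs : ∀ x, A ≤ |x| → g x = 0) (t : ℝ) (ht : 0 < t)
    (d : ℤ) (hd : d ∉ box A t) : g (t * (d : ℝ)) = 0 := by
  apply hs
  have h1 : A / t ≤ (⌈A / t⌉₊ : ℝ) := Nat.le_ceil _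
  rw [div_le_iff₀ ht] at h1
  unfold box at hd
  rw [Finset.mem_Icc, not_and_or, not_le, not_le] at hd
  rcases hd with h | h
  · have h2 : (d : ℝ) ≤ -(⌈A / t⌉₊ : ℝ) := by exact_mod_cast h.le
    have h3 := neg_le_abs (t * (d : ℝ))
    nlinarith
  · have h2 : (⌈A / t⌉₊ : ℝ) ≤ (d : ℝ) := by exact_mod_cast h.le
    have h3 := le_abs_self (t * (d : ℝ))
    nlinarith

private theorem even_sum (g : ℝ → ℝ) (A : ℝ) (hs : ∀ x, A ≤ |x| → g x = 0) (t : ℝ) (ht : 0 < t) :
    ∑ d ∈ (box A t).filter (fun d => Even d), g (t * (d : ℝ)) =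
      ∑ m ∈ box A (2 * t), g (2 * t * (m : ℝ)) := by
  have h1 : ∑ m ∈ box A (2 * t), g (2 * t * (m : ℝ)) =
      ∑ d ∈ (box A (2 * t)).image (fun m : ℤ => 2 * m), g (t * (d : ℝ)) := by
    rw [Finset.sum_image (fun a _ b _ h => by
      have h' : 2 * a = 2 * b := h
      omega)]
    refine Finset.sum_congr rfl (fun m _ => ?_)
    congr 1
    push_cast
    ring
  rw [h1]
  have h2 : ∀ U : Finset ℤ, ∀ S : Finset ℤ, S ⊆ U → (∀ d ∈ U, d ∉ S → g (t * (d : ℝ)) = 0) →
      ∑ d ∈ S, g (t * (d : ℝ)) = ∑ d ∈ U, g (t * (d : ℝ)) := by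
    intro U S hSU h0
    exact Finset.sum_subset hSU h0
  set U : Finset ℤ := (box A t).filter (fun d => Even d) ∪
    (box A (2 * t)).image (fun m : ℤ => 2 * m) with hU
  rw [h2 U _ Finset.subset_union_left ?_, h2 U _ Finset.subset_union_right ?_]
  · intro d hd hd2
    rw [hU, Finset.mem_union] at hd
    rcases hd with h | h
    · rw [Finset.mem_filter] at h
      obtain ⟨m, hm⟩ := h.2
      have hm2 : d = 2 * m := by omega
      have h3 : m ∉ box A (2 * t) := by
        intro hmem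
        apply hd2
        rw [Finset.mem_image]
        exact ⟨m, hmem, hm2.symm⟩
      have h4 := zero_out g A hs (2 * t) (by linarith) m h3
      have h5 : t * (d : ℝ) = 2 * t * (m : ℝ) := by
        rw [hm2]
        push_cast
        ring
      rw [h5]
      exact h4
    · exact absurd h hd2
  · intro d hd hd2
    rw [hU, Finset.mem_union] at hd
    rcases hd with h | h
    · exact absurd h hd2
    · rw [Finset.mem_image] at h
      obtain ⟨m, _, hm⟩ := h
      apply zero_out g A hs t ht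
      intro hmem
      apply hd2
      rw [Finset.mem_filter]
      exact ⟨hmem, ⟨m, by omega⟩⟩

theorem riem_alt (g : ℝ → ℝ) (hg : Continuous g) (A : ℝ) (hA : 0 < A)
    (hs : ∀ x, A ≤ |x| → g x = 0) :
    Tendsto (fun t : ℝ => t * ∑ d ∈ box A t, (-1 : ℝ) ^ d * g (t * (d : ℝ))) (𝓝[>] (0:ℝ)) (𝓝 0) := by
  have h1 := riem_line g hg A hA hs
  have h2 : Tendsto (fun t : ℝ => 2 * t) (𝓝[>] (0:ℝ)) (𝓝[>] (0:ℝ)) := by
    rw [tendsto_nhdsWithin_iff]
    constructor
    · have h3 : Tendsto (fun t : ℝ => 2 * t) (𝓝 0) (𝓝 (2 * 0)) := tendsto_id.const_mul 2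
      rw [mul_zero] at h3
      exact h3.mono_left nhdsWithin_le_nhds
    · filter_upwards [self_mem_nhdsWithin] with t ht
      have ht' : (0:ℝ) < t := ht
      show (0:ℝ) < 2 * t
      linarith
  have h4 := (h1.comp h2).sub h1
  rw [sub_self] at h4
  refine h4.congr' ?_
  filter_upwards [self_mem_nhdsWithin] with t ht
  have ht' : (0:ℝ) < t := ht
  show 2 * t * ∑ d ∈ box A (2 * t), g (2 * t * (d : ℝ)) - t * ∑ d ∈ box A t, g (t * (d : ℝ)) =
    t * ∑ d ∈ box A t, (-1 : ℝ) ^ d * g (t * (d : ℝ))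
  rw [← even_sum g A hs t ht', Finset.sum_filter, mul_comm 2 t, mul_assoc, ← mul_sub, Finset.mul_sum,
    ← Finset.sum_sub_distrib]
  congr 1
  refine Finset.sum_congr rfl (fun d _ => ?_)
  by_cases hd : Even d
  · rw [if_pos hd, hd.neg_one_zpow]
    ring
  · rw [if_neg hd, (Int.not_even_iff_odd.1 hd).neg_one_zpow]
    ring

end Pool.Agent.Helper64.MVB
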