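import Pool.Agent.Helper60.MV.Defs
import Pool.Agent.Helper60.MV.B.Riemann

/-!
Project MV, block B, module MVB-RSO: Riemann sums on the open orthant.

PROOF. Fix `t > 0`. The boxes `Q l = Set.pi univ (fun e => Ioc (t * (l e - 1)) (t * l e))`, `l : ι → ℕ+`, are
disjoint, measurable, of volume `t ^ card ι` (`Real.volume_pi_Ioc`), and their union is the open orthant.
Let `G t x = F (fun e => t * ⌈x e / t⌉)` (`Int.ceil` or `Nat.ceil`). On `Q l` the function `G t` is the constant
`F (t l)`. On the orthant `x e ≤ t * ⌈x e / t⌉ ≤ x e + t`, so `|G t x| ≤ C exp (-(c ∑ x))`, which is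
integrable on the orthant (product of one dimensional integrals: `MeasureTheory.Integrable.fintype_prod`
for the indicator functions, or `integrable_fintype_prod..`). Hence
`t ^ card ι * ∑' l, F (t l) = ∫ orthant, G t` (`MeasureTheory.hasSum_integral_iUnion`; also gives the
summability: `riem_summable`), and by dominated convergence
(`MeasureTheory.tendsto_integral_filter_of_dominated_convergence`) and continuity of `F` this tends to
`∫ orthant, F`. (`C` may be replaced by `|C|`; note that `0 ≤ C` follows from `hb` anyway.)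
The case of an empty `ι` is covered by the same argument.
-/

namespace Pool.Agent.Helper64.MVB

open Pool.Agent.Helper60.MV MeasureTheory Filter Topology

theorem riem_summable {ι : Type} [Fintype ι] (F : (ι → ℝ) → ℝ) (C c : ℝ)
    (hc : 0 < c) (hb : ∀ x, (∀ e, 0 ≤ x e) → |F x| ≤ C * Real.exp (-(c * ∑ e, x e)))
    (t : ℝ) (ht : 0 < t) : Summable (fun l : ι → ℕ+ => F (fun e => t * ((l e : ℕ) : ℝ))) :=
  lattice_summable F C c hc hb t ht

theorem riem_orthant {ι : Type} [Fintype ι] (F : (ι → ℝ) → ℝ) (hF : Continuous F) (C c : ℝ)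
    (hc : 0 < c) (hb : ∀ x, (∀ e, 0 ≤ x e) → |F x| ≤ C * Real.exp (-(c * ∑ e, x e))) :
    Tendsto (fun t : ℝ => t ^ Fintype.card ι * ∑' l : ι → ℕ+, F (fun e => t * ((l e : ℕ) : ℝ)))
      (𝓝[>] (0:ℝ)) (𝓝 (∫ x in {x : ι → ℝ | ∀ e, 0 < x e}, F x)) :=
  riemann_sum F hF.continuousOn C c hc hb

end Pool.Agent.Helper64.MVB
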