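import Mathlib

/-!
Project MV, block B, module MVB-SAND: abstract sandwich lemma.

PROOF. For `ε ∈ (0, 1]` and `η > 0`, eventually (`t → 0+`) `h t > 0` and
`exp (-(C ε)) * (G t / h t) ≤ f t ≤ exp (C ε) * (G t / h t)`, `G t / h t → 2 A ε`, hence eventually
(1) `exp (-(C ε)) * (2 A ε) - η ≤ f t ≤ exp (C ε) * (2 A ε) + η`.
With `ε = 1, η = 1`: eventually `f t ≤ M₀ := exp C * 2 A 1 + 1`. So by (1) (at one suitable `t`) for each
`ε ∈ (0, 1]`: `2 A ε ≤ exp (C ε) * (M₀ + 1) ≤ M := exp C * (M₀ + 1)`. Hence (1) gives: for all `ε ∈ (0,1]`, `η > 0`, eventually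
(2) `|f t - 2 A ε| ≤ (exp (C ε) - 1) * M + η`.
(for the lower side `2 A ε - exp (-(C ε)) 2 A ε ≤ (exp (C ε) - 1) * 2 A ε`.)
So `f` is Cauchy along `𝓝[>] 0` (`cauchy_map_iff`, `Metric.cauchy_iff`), `f → L` and then
`|L - 2 A ε| ≤ (exp (C ε) - 1) * M` for all `ε ∈ (0, 1]`, so `2 A ε → L`. Put `a = L / 2`.
-/

namespace Pool.Agent.Helper64.MVB

open Filter Topology

theorem sandwich (f A : ℝ → ℝ) (C : ℝ) (hC : 0 ≤ C)
    (H : ∀ ε : ℝ, 0 < ε → ε ≤ 1 → ∃ G h : ℝ → ℝ, Tendsto G (𝓝[>] (0:ℝ)) (𝓝 (A ε)) ∧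
      Tendsto h (𝓝[>] (0:ℝ)) (𝓝 (1 / 2)) ∧ 0 ≤ A ε ∧
      ∀ t : ℝ, 0 < t → 0 ≤ f t ∧ G t ≤ Real.exp (C * ε) * (f t * h t) ∧
        Real.exp (-(C * ε)) * (f t * h t) ≤ G t) :
    ∃ a : ℝ, Tendsto f (𝓝[>] (0:ℝ)) (𝓝 (2 * a)) ∧ Tendsto A (𝓝[>] (0:ℝ)) (𝓝 a) := by
  -- (1)
  have h1 : ∀ ε : ℝ, 0 < ε → ε ≤ 1 → 0 ≤ A ε ∧ ∀ η : ℝ, 0 < η → ∀ᶠ t in 𝓝[>] (0:ℝ),
      Real.exp (-(C * ε)) * (2 * A ε) - η ≤ f t ∧ f t ≤ Real.exp (C * ε) * (2 * A ε) + η := by
    intro ε hε hε1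
    obtain ⟨G, h, hG, hh, hA, hf⟩ := H ε hε hε1
    refine ⟨hA, fun η hη => ?_⟩
    have hq : Tendsto (fun t => G t / h t) (𝓝[>] (0:ℝ)) (𝓝 (A ε / (1 / 2))) :=
      hG.div hh (by norm_num)
    have hu : Tendsto (fun t => Real.exp (C * ε) * (G t / h t)) (𝓝[>] (0:ℝ))
        (𝓝 (Real.exp (C * ε) * (A ε / (1 / 2)))) := hq.const_mul _
    have hl : Tendsto (fun t => Real.exp (-(C * ε)) * (G t / h t)) (𝓝[>] (0:ℝ))
        (𝓝 (Real.exp (-(C * ε)) * (A ε / (1 / 2)))) := hq.const_mul _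
    have hpos : ∀ᶠ t in 𝓝[>] (0:ℝ), 0 < h t :=
      hh.eventually (lt_mem_nhds (by norm_num : (0:ℝ) < 1 / 2))
    have hu' := hu.eventually (gt_mem_nhds (by linarith :
      Real.exp (C * ε) * (A ε / (1 / 2)) < Real.exp (C * ε) * (A ε / (1 / 2)) + η))
    have hl' := hl.eventually (lt_mem_nhds (by linarith :
      Real.exp (-(C * ε)) * (A ε / (1 / 2)) - η < Real.exp (-(C * ε)) * (A ε / (1 / 2))))
    filter_upwards [hpos, hu', hl', self_mem_nhdsWithin] with t ht hut hlt ht0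
    obtain ⟨_, hf1, hf2⟩ := hf t ht0
    have e1 : A ε / (1 / 2) = 2 * A ε := by ring
    rw [e1] at hut hlt
    have hee : Real.exp (C * ε) * Real.exp (-(C * ε)) = 1 := by
      rw [← Real.exp_add]
      simp
    have k1 : G t / h t ≤ Real.exp (C * ε) * f t := by
      rw [div_le_iff₀ ht]
      calc G t ≤ Real.exp (C * ε) * (f t * h t) := hf1
        _ = Real.exp (C * ε) * f t * h t := by ring
    have k2 : Real.exp (-(C * ε)) * f t ≤ G t / h t := by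
      rw [le_div_iff₀ ht]
      calc Real.exp (-(C * ε)) * f t * h t = Real.exp (-(C * ε)) * (f t * h t) := by ring
        _ ≤ G t := hf2
    have k3 : Real.exp (-(C * ε)) * (G t / h t) ≤ f t := by
      calc Real.exp (-(C * ε)) * (G t / h t) ≤ Real.exp (-(C * ε)) * (Real.exp (C * ε) * f t) :=
            mul_le_mul_of_nonneg_left k1 (Real.exp_pos _).le
        _ = (Real.exp (C * ε) * Real.exp (-(C * ε))) * f t := by ring
        _ = f t := by rw [hee, one_mul]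
    have k4 : f t ≤ Real.exp (C * ε) * (G t / h t) := by
      calc f t = (Real.exp (C * ε) * Real.exp (-(C * ε))) * f t := by rw [hee, one_mul]
        _ = Real.exp (C * ε) * (Real.exp (-(C * ε)) * f t) := by ring
        _ ≤ Real.exp (C * ε) * (G t / h t) :=
            mul_le_mul_of_nonneg_left k2 (Real.exp_pos _).le
    exact ⟨by linarith, by linarith⟩
  haveI : (𝓝[>] (0:ℝ)).NeBot := inferInstance
  -- the bound `M`
  obtain ⟨M, hM0, hM⟩ : ∃ M : ℝ, 0 ≤ M ∧ ∀ ε : ℝ, 0 < ε → ε ≤ 1 → 2 * A ε ≤ M := by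
    obtain ⟨hA1, h11⟩ := h1 1 one_pos le_rfl
    have hb := h11 1 one_pos
    rw [mul_one] at hb
    refine ⟨Real.exp C * (Real.exp C * (2 * A 1) + 1 + 1), by positivity, fun ε hε hε1 => ?_⟩
    obtain ⟨hA, h12⟩ := h1 ε hε hε1
    obtain ⟨t, ht1, ht2⟩ := (hb.and (h12 1 one_pos)).exists
    have hee : Real.exp (C * ε) * Real.exp (-(C * ε)) = 1 := by
      rw [← Real.exp_add]
      simp
    have k1 : Real.exp (-(C * ε)) * (2 * A ε) ≤ Real.exp C * (2 * A 1) + 1 + 1 := by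
      linarith [ht1.2, ht2.1]
    have k2 : 2 * A ε ≤ Real.exp (C * ε) * (Real.exp C * (2 * A 1) + 1 + 1) := by
      calc 2 * A ε = (Real.exp (C * ε) * Real.exp (-(C * ε))) * (2 * A ε) := by
            rw [hee, one_mul]
        _ = Real.exp (C * ε) * (Real.exp (-(C * ε)) * (2 * A ε)) := by ring
        _ ≤ _ := mul_le_mul_of_nonneg_left k1 (Real.exp_pos _).le
    refine k2.trans (mul_le_mul_of_nonneg_right (Real.exp_le_exp.2 ?_) (by positivity))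
    nlinarith
  -- (2)
  have h2 : ∀ ε : ℝ, 0 < ε → ε ≤ 1 → ∀ η : ℝ, 0 < η → ∀ᶠ t in 𝓝[>] (0:ℝ),
      |f t - 2 * A ε| ≤ (Real.exp (C * ε) - 1) * M + η := by
    intro ε hε hε1 η hη
    obtain ⟨hA, h12⟩ := h1 ε hε hε1
    filter_upwards [h12 η hη] with t ht
    have e0 : 1 ≤ Real.exp (C * ε) := Real.one_le_exp (by positivity)
    have hAM : (Real.exp (C * ε) - 1) * (2 * A ε) ≤ (Real.exp (C * ε) - 1) * M :=
      mul_le_mul_of_nonneg_left (hM ε hε hε1) (by linarith)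
    have e1 : 1 - Real.exp (-(C * ε)) ≤ Real.exp (C * ε) - 1 := by
      have := Real.add_one_le_exp (-(C * ε))
      have := Real.add_one_le_exp (C * ε)
      linarith
    have hAM2 : (1 - Real.exp (-(C * ε))) * (2 * A ε) ≤ (Real.exp (C * ε) - 1) * (2 * A ε) :=
      mul_le_mul_of_nonneg_right e1 (by linarith)
    rw [abs_le]
    constructor
    · linarith [ht.1]
    · linarith [ht.2]
  have hzero : Tendsto (fun ε : ℝ => (Real.exp (C * ε) - 1) * M) (𝓝[>] (0:ℝ)) (𝓝 0) := by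
    have hc : Continuous (fun ε : ℝ => (Real.exp (C * ε) - 1) * M) := by fun_prop
    have := hc.tendsto 0
    simp only [mul_zero, Real.exp_zero, sub_self, zero_mul] at this
    exact this.mono_left nhdsWithin_le_nhds
  have hsmall : ∀ᶠ ε in 𝓝[>] (0:ℝ), 0 < ε ∧ ε ≤ 1 := by
    have : Set.Ioc (0:ℝ) 1 ∈ 𝓝[>] (0:ℝ) := Ioc_mem_nhdsGT one_pos
    filter_upwards [this] with ε hε
    exact ⟨hε.1, hε.2⟩
  have hcau : Cauchy (map f (𝓝[>] (0:ℝ))) := by
    rw [Metric.cauchy_iff]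
    refine ⟨inferInstance, fun δ hδ => ?_⟩
    have h3 := hzero.eventually (gt_mem_nhds (by linarith : (0:ℝ) < δ / 4))
    obtain ⟨ε, hε3, hε, hε1⟩ := (h3.and hsmall).exists
    have h4 := h2 ε hε hε1 (δ / 8) (by linarith)
    refine ⟨{x | |x - 2 * A ε| ≤ (Real.exp (C * ε) - 1) * M + δ / 8}, h4, ?_⟩
    intro x hx y hy
    change |x - 2 * A ε| ≤ _ at hx
    change |y - 2 * A ε| ≤ _ at hy
    rw [Real.dist_eq]
    have h5 : |x - y| ≤ |x - 2 * A ε| + |y - 2 * A ε| := by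
      have : x - y = (x - 2 * A ε) - (y - 2 * A ε) := by ring
      rw [this]
      exact abs_sub _ _
    linarith
  obtain ⟨L, hL⟩ := cauchy_map_iff_exists_tendsto.1 hcau
  have h6 : ∀ ε : ℝ, 0 < ε → ε ≤ 1 → |L - 2 * A ε| ≤ (Real.exp (C * ε) - 1) * M := by
    intro ε hε hε1
    refine le_of_forall_pos_le_add fun η hη => ?_
    have h7 : Tendsto (fun t => |f t - 2 * A ε|) (𝓝[>] (0:ℝ)) (𝓝 |L - 2 * A ε|) :=
      (hL.sub_const _).abs
    exact le_of_tendsto h7 (h2 ε hε hε1 η hη)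
  have h8 : Tendsto (fun ε => L - 2 * A ε) (𝓝[>] (0:ℝ)) (𝓝 0) := by
    rw [tendsto_zero_iff_abs_tendsto_zero]
    refine squeeze_zero' (Eventually.of_forall fun ε => abs_nonneg _) ?_ hzero
    filter_upwards [hsmall] with ε hε
    exact h6 ε hε.1 hε.2
  refine ⟨L / 2, ?_, ?_⟩
  · have : 2 * (L / 2) = L := by ring
    rw [this]
    exact hL
  · have h9 := (h8.const_sub L).div_const 2
    simp only [sub_zero] at h9
    refine h9.congr fun ε => ?_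
    ring

end Pool.Agent.Helper64.MVB
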